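import Pool.Agent.Helper79.GT.St6

/-!
# Project GT, module MAI: the theorem from the modules
-/

set_option autoImplicit false

namespace Pool.Agent.Helper33.GT

open Pool.Agent.Helper79.GT Pool.Agent.Helper79.GS Pool.Agent.Helper19.SK Pool.Agent.Helper73.DC
  Finset
open scoped Classical

theorem hMAI (hSIM : StSIM) (hPSX : StPSX) (hGDV : StGDV) (hSZV : StSZV) (hENV : StENV)
    (hFNV : StFNV) : Pool.Agent.Helper79.GT.StMAI := by
  intro sk tc D hD
  obtain ⟨ef, Sf, hEf, hCf⟩ := hSIM (D false) (hD false) 3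
  obtain ⟨et, St, hEt, hCt⟩ := hSIM (D true) (hD true) 3
  obtain ⟨e1, hG⟩ := hGDV
  obtain ⟨e2, hS⟩ := hSZV
  obtain ⟨e, hef, het, he1, he2⟩ : ∃ e : ℕ, ef ≤ e ∧ et ≤ e ∧ e1 ≤ e ∧ e2 ≤ e :=
    ⟨ef + et + e1 + e2, by omega, by omega, by omega, by omega⟩
  obtain ⟨Sm, hSf, hSt⟩ : ∃ Sm : Bool → ℕ → ℕ → (ℕ → ℕ) → Prop, Sm false = Sf ∧ Sm true = St :=
    ⟨fun i => cond i St Sf, rfl, rfl⟩
  have hE : SmE Sm := by
    intro i N l LT hN hl hLT
    cases i
    · rw [hSf]; exact hEf N l LT hN hl hLT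
    · rw [hSt]; exact hEt N l LT hN hl hLT
  have hC : SmC Sm D e := by
    intro i w x hx
    cases i
    · rw [hSf]; exact hCf e hef w x hx
    · rw [hSt]; exact hCt e het w x hx
  refine ⟨LangX (goX sk tc e Sm), hPSX _ (hG e he1 sk tc Sm hE), ?_⟩
  intro n m kb kw c P H hn hF hSo
  obtain ⟨-, -, h3, h4, h5, -⟩ := hS e he2 sk tc Sm (inst n m kb kw c P H)
  have hnV := (hENV n m kb kw c P H hn).1
  rw [hnV] at h3 h4 h5
  exact hFNV sk tc e Sm D hC n m kb kw c P H hn h4 h3 h5 hF hSo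

end Pool.Agent.Helper33.GT
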